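import Pool.Agent.Lib.MP_81b71e_al.Cd.Main

/-!
# Distributive algebraic lattices

Let `L` be a distributive algebraic lattice in which joins distribute over arbitrary meets, or which
has only countably many compact elements, or in which the meet of two compact elements is compact.
Then the pair `(L, L₂)` is isomorphic to `(Qord A, Con A)` for some algebra `A` if and only if `L₂` is
the set of fixed points of an involutive automorphism of `L`.
-/

namespace Pool.Agent.Results.MP_81b71e_al.DistributiveCase

open Pool.Agent.Lib.MP_81b71e_al

universe u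

theorem result (L : Type u) [CompleteLattice L] [IsCompactlyGenerated L]
    (hd : ∀ x y z : L, x ⊓ (y ⊔ z) = (x ⊓ y) ⊔ (x ⊓ z))
    (h : (∀ (x : L) (S : Set L), x ⊔ sInf S = ⨅ y ∈ S, x ⊔ y) ∨
      {c : L | IsCompactElement c}.Countable ∨
      ∀ a b : L, IsCompactElement a → IsCompactElement b → IsCompactElement (a ⊓ b))
    (L₂ : Set L) :
    Realizable L L₂ ↔ ∃ θ : L ≃o L, (∀ x, θ (θ x) = x) ∧ L₂ = {x | θ x = x} := by
  constructor
  · exact Realizable.exists_involution
  · rintro ⟨θ, hθ, rfl⟩
    rcases h with h | h | h
    · exact realizable_of_cjp θ hθ (fun x y hxy => exists_cjp h hxy)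
    · exact Cd.realizable_of_countable (Cd.distrib hd) h θ hθ
    · exact Cd.realizable_of_inf (Cd.distrib hd) h θ hθ

end Pool.Agent.Results.MP_81b71e_al.DistributiveCase
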