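import Pool.Agent.Lib.MP_81b71e_al.Lines

/-!
# Lines of geometric lattices

Let `(L, L₂)` be isomorphic to `(Qord A, Con A)` for some algebra `A` and let `L` be (upper)
semimodular with a least element. Then every line with at least three points belongs to `L₂`. If,
moreover, `L` is atomistic and every atom is on two different lines with at least three points,
then `L₂ = L`.
-/

namespace Pool.Agent.Results.MP_81b71e_al.GeometricLines

open Pool.Agent.Lib.MP_81b71e_al

universe u

/-- `r` is the join of two atoms and contains at least three atoms. -/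
def ThickLine {L : Type u} [Lattice L] [OrderBot L] (r : L) : Prop :=
  ∃ a b c : L, IsAtom a ∧ IsAtom b ∧ IsAtom c ∧ a ≠ b ∧ a ≠ c ∧ b ≠ c ∧ r = a ⊔ b ∧ c ≤ r

theorem thickLine_mem {L : Type u} [Lattice L] [OrderBot L] [IsUpperModularLattice L]
    {L₂ : Set L} (hR : Realizable L L₂) {r : L} (hr : ThickLine r) : r ∈ L₂ := by
  obtain ⟨a, b, c, ha, hb, hc, hab, hac, hbc, rfl, hcr⟩ := hr
  apply line_mem hR ha hb hc le_sup_left le_sup_right hcr hab hac hbc
  · intro p q hp hq hpr hqr hpq
    exact (atoms_line ha hb hab hp hq hpr hqr hpq).ge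
  · intro p q hp hq hqr hpr
    exact atoms_mod hp hqr hpr

theorem result (L : Type u) [Lattice L] [OrderBot L] [IsUpperModularLattice L] (L₂ : Set L)
    (hR : Realizable L L₂) :
    (∀ r : L, ThickLine r → r ∈ L₂) ∧
      (IsAtomistic L →
        (∀ p : L, IsAtom p → ∃ r s : L, ThickLine r ∧ ThickLine s ∧ r ≠ s ∧ p ≤ r ∧ p ≤ s) →
        L₂ = Set.univ) := by
  refine ⟨fun r hr => thickLine_mem hR hr, ?_⟩
  intro hat hlines
  obtain ⟨θ, hθ, hL⟩ := hR.exists_involution
  have hmem : ∀ {x : L}, x ∈ L₂ ↔ θ x = x := by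
    intro x
    rw [hL]
    rfl
  have hatom : ∀ p : L, IsAtom p → θ p = p := by
    intro p hp
    obtain ⟨r, s, hr, hs, hrs, hpr, hps⟩ := hlines p hp
    have hr2 := hmem.1 (thickLine_mem hR hr)
    have hs2 := hmem.1 (thickLine_mem hR hs)
    obtain ⟨a, b, c, ha, hb, hc, hab, hac, hbc, hr', hcr⟩ := hr
    obtain ⟨a', b', c', ha', hb', hc', hab', hac', hbc', hs', hcs⟩ := hs
    have hle : ¬ r ≤ s := by
      intro h
      apply hrs
      have h1 : a ≤ a' ⊔ b' := by
        rw [← hs']
        exact le_trans (by rw [hr']; exact le_sup_left) h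
      have h2 : b ≤ a' ⊔ b' := by
        rw [← hs']
        exact le_trans (by rw [hr']; exact le_sup_right) h
      rw [hr', hs']
      exact atoms_line ha' hb' hab' ha hb h1 h2 hab
    -- `p` is covered by `r`
    have hpq : ∃ q : L, IsAtom q ∧ q ≤ r ∧ p ≠ q := by
      by_cases h : p = a
      · refine ⟨b, hb, ?_, ?_⟩
        · rw [hr']
          exact le_sup_right
        · rw [h]
          exact hab
      · refine ⟨a, ha, ?_, h⟩
        rw [hr']
        exact le_sup_left
    obtain ⟨q, hq, hqr, hpq⟩ := hpq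
    have hpqr : p ⊔ q = r := by
      rw [hr'] at hpr hqr ⊢
      exact atoms_line ha hb hab hp hq hpr hqr hpq
    have hcov : p ⋖ r := by
      have h1 : q ⊓ p = ⊥ := by
        rcases hq.le_iff.1 (inf_le_left : q ⊓ p ≤ q) with h | h
        · exact h
        · exfalso
          have h2 : q ≤ p := by
            rw [← h]
            exact inf_le_right
          rcases hp.le_iff.1 h2 with h3 | h3
          · exact hq.1 h3
          · exact hpq h3.symm
      have h2 : q ⊓ p ⋖ q := by
        rw [h1]
        exact bot_covBy_iff.2 hq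
      have h3 : p ⋖ q ⊔ p := IsUpperModularLattice.covBy_sup_of_inf_covBy h2
      rwa [sup_comm, hpqr] at h3
    have hinf : r ⊓ s = p := by
      rcases hcov.eq_or_eq (le_inf hpr hps) inf_le_left with h | h
      · exact h
      · exfalso
        apply hle
        rw [← h]
        exact inf_le_right
    rw [← hinf, map_inf, hr2, hs2]
  ext x
  simp only [Set.mem_univ, iff_true]
  rw [hmem]
  have hle : ∀ y : L, y ≤ θ y := by
    intro y
    obtain ⟨t, ht, hta⟩ := hat.isLUB_atoms y
    apply ht.2
    intro p hp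
    rw [← hatom p (hta p hp)]
    exact θ.monotone (ht.1 hp)
  apply le_antisymm _ (hle x)
  have h1 := hle (θ x)
  rwa [hθ] at h1

end Pool.Agent.Results.MP_81b71e_al.GeometricLines
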