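import Pool.Agent.Lib.MP_81b71e_H.Main

/-!
# A sufficient condition: kernel operators

Let `L` be an algebraic lattice and `θ` an involutive automorphism of `L`. If there are enough
decreasing idempotent endomorphisms `φ` of the join semilattice of the compact elements which
commute with `θ`, such that the image of `φ` satisfies the comparison law and an element `y < x` of
the image is reached from every `x` with `θ x ≠ x` by a decreasing endomorphism `ψ`, then the pair
formed by `L` and the set of fixed points of `θ` is isomorphic to `(Qord A, Con A)` for some algebra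
`A`.
-/

namespace Pool.Agent.Results.MP_81b71e_al.KernelOperators

open Pool.Agent.Lib.MP_81b71e_al

universe u

/-- `ψ` maps compact elements to compact elements, and on compact elements it preserves joins,
commutes with `θ` and is decreasing. -/
structure IsContraction {L : Type u} [CompleteLattice L] (θ : L ≃o L) (ψ : L → L) : Prop where
  compact : ∀ x, IsCompactElement x → IsCompactElement (ψ x)
  sup : ∀ x y, IsCompactElement x → IsCompactElement y → ψ (x ⊔ y) = ψ x ⊔ ψ y
  comm : ∀ x, IsCompactElement x → ψ (θ x) = θ (ψ x)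
  le : ∀ x, IsCompactElement x → ψ x ≤ x

/-- The comparison law for the members of `S`. -/
def ComparisonLaw {L : Type u} [Lattice L] (θ : L ≃o L) (S : L → Prop) : Prop :=
  ∀ t r q g k, S t → S r → S q → S g → S k → r ≤ q ⊔ θ t → q ≤ r ⊔ t → t ≤ θ r ⊔ q → θ t ≤ k →
    k ≤ θ t ⊔ g → g ≤ t ⊔ k → r ⊔ g ≤ q ⊔ k ∨ q ⊔ k ≤ r ⊔ g

/-- A kernel operator: an idempotent contraction `φ` whose set of compact fixed points satisfies the
comparison law, and such that for compact fixed points `⊥ ≠ y < x`, `θ x ≠ x` there is a contraction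
`ψ` such that `y ≤ ψ x` and either `ψ x` is fixed by `θ` or `ψ x = y`. -/
structure IsKernelOperator {L : Type u} [CompleteLattice L] (θ : L ≃o L) (φ : L → L) : Prop
    extends IsContraction θ φ where
  idem : ∀ x, IsCompactElement x → φ (φ x) = φ x
  comparison : ComparisonLaw θ (fun x => IsCompactElement x ∧ φ x = x)
  below : ∀ x y, IsCompactElement x → IsCompactElement y → φ x = x → φ y = y → θ x ≠ x →
    y < x → y ≠ ⊥ → ∃ ψ : L → L, IsContraction θ ψ ∧ y ≤ ψ x ∧ (θ (ψ x) = ψ x ∨ ψ x = y)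

theorem result (L : Type u) [CompleteLattice L] [IsCompactlyGenerated L] (θ : L ≃o L)
    (hθ : ∀ x, θ (θ x) = x)
    (h : ∀ x, IsCompactElement x →
      ∃ T : Finset (L → L), (∀ φ ∈ T, IsKernelOperator θ φ) ∧ x ≤ T.sup (fun φ => φ x)) :
    Realizable L {x | θ x = x} := by
  classical
  have key : ∀ ψ : L → L, IsContraction θ ψ → MP81H.Ctr θ ψ :=
    fun ψ hψ => ⟨hψ.compact, hψ.sup, hψ.comm, hψ.le⟩
  refine MP81H.m_Ker L θ {φ : L → L // IsKernelOperator θ φ} (fun φ => φ.1) hθ
    (fun φ => key _ φ.2.toIsContraction) (fun φ => φ.2.idem) ?_ ?_ ?_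
  · intro x hx
    obtain ⟨T, hT, hle⟩ := h x hx
    refine ⟨T.attach.image (fun φ => ⟨φ.1, hT φ.1 φ.2⟩), ?_⟩
    refine hle.trans ?_
    apply Finset.sup_le
    intro φ hφ
    have h2 : (⟨φ, hT φ hφ⟩ : {φ : L → L // IsKernelOperator θ φ}) ∈
        T.attach.image (fun φ => (⟨φ.1, hT φ.1 φ.2⟩ : {φ : L → L // IsKernelOperator θ φ})) :=
      Finset.mem_image.2 ⟨⟨φ, hφ⟩, Finset.mem_attach _ _, rfl⟩
    exact Finset.le_sup (f := fun φ : {φ : L → L // IsKernelOperator θ φ} => φ.1 x) h2
  · intro φ t r q g k ht hr hq hg hk ft fr fq fg fk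
    exact φ.2.comparison t r q g k ⟨ht, ft⟩ ⟨hr, fr⟩ ⟨hq, fq⟩ ⟨hg, fg⟩ ⟨hk, fk⟩
  · intro φ x y hx hy fx fy hns hlt hne
    obtain ⟨ψ, h1, h2⟩ := φ.2.below x y hx hy fx fy hns hlt hne
    exact ⟨ψ, key ψ h1, h2⟩

end Pool.Agent.Results.MP_81b71e_al.KernelOperators
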