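import Pool.Agent.Lib.MP_81b71e_M.Main

/-!
# Modular lattices

Let `L` be an algebraic modular lattice in which every compact element has finite height, and
suppose that the join of any two different covers `a`, `b` of an element `z` for which the prime
quotients `(z, a)` and `(z, b)` are projective contains a third cover of `z`. The pair `(L, L₂)` is
isomorphic to `(Qord A, Con A)` for some algebra `A` if and only if `L₂` is the set of fixed points
of an involutive automorphism `θ` of `L` such that `m = z ⊔ (m ⊓ θ m)` whenever `m` is the join of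
two covers of `z` and contains a third one.
-/

namespace Pool.Agent.Results.MP_81b71e_al.ModularCase

open Pool.Agent.Lib.MP_81b71e_al

universe u

/-- `p` and `q` are prime quotients (pairs `x ⋖ y`) and `q` is obtained by transposing `p` up:
`p.2 ⊓ q.1 = p.1` and `p.2 ⊔ q.1 = q.2`. -/
def TransposeUp {L : Type u} [Lattice L] (p q : L × L) : Prop :=
  p.1 ⋖ p.2 ∧ q.1 ⋖ q.2 ∧ p.2 ⊓ q.1 = p.1 ∧ p.2 ⊔ q.1 = q.2

/-- Projective prime quotients: the equivalence relation generated by `TransposeUp`. -/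
def Projective {L : Type u} [Lattice L] (p q : L × L) : Prop :=
  Relation.EqvGen TransposeUp p q

theorem result (L : Type u) [CompleteLattice L] [IsCompactlyGenerated L] [IsModularLattice L]
    (hfin : ∀ x : L, IsCompactElement x → Order.height x ≠ ⊤)
    (hthick : ∀ z a b : L, z ⋖ a → z ⋖ b → a ≠ b → Projective (z, a) (z, b) →
      ∃ c, z ⋖ c ∧ c ≠ a ∧ c ≠ b ∧ c ≤ a ⊔ b) (L₂ : Set L) :
    Realizable L L₂ ↔ ∃ θ : L ≃o L, (∀ x, θ (θ x) = x) ∧
      (∀ z a b c : L, z ⋖ a → z ⋖ b → z ⋖ c → a ≠ b → a ≠ c → b ≠ c → c ≤ a ⊔ b →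
        a ⊔ b = z ⊔ ((a ⊔ b) ⊓ θ (a ⊔ b))) ∧
      L₂ = {x | θ x = x} := by
  have h1 : MP81M.Thk L := by
    intro z a b hza hzb hab hpj
    obtain ⟨c, h2, h3, h4, h5⟩ := hthick z a b hza hzb hab hpj
    exact ⟨c, hza, hzb, h2, hab, h3.symm, h4.symm, h5⟩
  rw [MP81M.modular hfin h1 L₂]
  constructor
  · rintro ⟨θ, h2, h3, h4⟩
    exact ⟨θ, h2, fun z a b c a1 a2 a3 a4 a5 a6 a7 => h3 z a b c ⟨a1, a2, a3, a4, a5, a6, a7⟩, h4⟩
  · rintro ⟨θ, h2, h3, h4⟩
    refine ⟨θ, h2, ?_, h4⟩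
    rintro z a b c ⟨a1, a2, a3, a4, a5, a6, a7⟩
    exact h3 z a b c a1 a2 a3 a4 a5 a6 a7

end Pool.Agent.Results.MP_81b71e_al.ModularCase
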